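import Pool.Agent.H46.Lib.R_seed8.H921R2.TatePole.Homs

set_option autoImplicit false
set_option linter.unusedSectionVars false

open Complex Filter Topology NumberField IsDedekindDomain

namespace Pool.Agent.H921R2.TatePole

section
variable {A E : Type*} [CommRing A] [CommRing E]

/-- a uniform denominator for finitely many elements -/
lemma uniform_den (j : A →+* E) (hlat : ∀ e : E, ∃ N : ℤ, N ≠ 0 ∧ ∃ a, j a = (N : E) * e)
    {κ : Type*} [Finite κ] (e : κ → E) :
    ∃ N : ℤ, N ≠ 0 ∧ ∀ k, ∃ a, j a = (N : E) * e k := by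
  classical
  have := Fintype.ofFinite κ
  choose N hN a ha using fun k => hlat (e k)
  refine ⟨∏ k, N k, Finset.prod_ne_zero_iff.mpr fun k _ => hN k, fun k => ?_⟩
  obtain ⟨c, hc⟩ := Finset.dvd_prod_of_mem N (Finset.mem_univ k)
  refine ⟨(c : A) * a k, ?_⟩
  rw [map_mul, map_intCast, ha, hc]
  push_cast
  ring

end

section
variable {M : Type} [Fintype M] (F : M → Type) [∀ m, Field (F m)] [∀ m, NumberField (F m)]
  {A : Type} [CommRing A] [Algebra.IsIntegral ℤ A]

variable {F} in
/-- the components of a homomorphism into a product of number fields -/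
noncomputable def comp' (j : A →+* ∀ m, F m) (m : M) : A →+* 𝓞 (F m) :=
  RingHom.codRestrict ((Pi.evalRingHom F m).comp j) (integralClosure ℤ (F m)).toSubring
    (fun a => by
      have h1 : IsIntegral ℤ a := Algebra.IsIntegral.isIntegral a
      exact h1.map ((Pi.evalRingHom F m).comp j).toIntAlgHom)

lemma comp'_coe (j : A →+* ∀ m, F m) (m : M) (a : A) : ((comp' j m a : 𝓞 (F m)) : F m) = j a m := rfl

/-- **Counting homomorphisms.** -/
lemma hc_eq_sum (j : A →+* ∀ m, F m) (hinj : Function.Injective j)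
    (hlat : ∀ e : (∀ m, F m), ∃ N : ℤ, N ≠ 0 ∧ ∃ a, j a = (N : ∀ m, F m) * e) :
    ∃ N : ℤ, N ≠ 0 ∧ ∀ p : Nat.Primes, ¬ ((p : ℕ) : ℤ) ∣ N →
      hc A (p : ℕ) = ∑ m, hc (𝓞 (F m)) (p : ℕ) := by
  classical
  -- generators of the rings of integers
  have hfg : ∀ m, ∃ s : Finset (𝓞 (F m)), Submodule.span ℤ (s : Set (𝓞 (F m))) = ⊤ :=
    fun m => Module.Finite.fg_top
  choose s hs using hfg
  obtain ⟨N, hN0, hN⟩ := uniform_den j hlat
    (κ := M ⊕ (Σ m, {x // x ∈ s m})) (fun k => match k with
      | Sum.inl m => Pi.single m 1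
      | Sum.inr ⟨m, x⟩ => Pi.single m ((x : 𝓞 (F m)) : F m))
  have hidem : ∀ m, ∃ a, j a = (N : ∀ m, F m) * Pi.single m 1 := fun m => hN (Sum.inl m)
  have hgen : ∀ m, ∀ b : 𝓞 (F m), ∃ a : A, comp' j m a = (N : 𝓞 (F m)) * b := by
    intro m b
    have hb : b ∈ Submodule.span ℤ (s m : Set (𝓞 (F m))) := by rw [hs m]; trivial
    induction hb using Submodule.span_induction with
    | mem x hx =>
      obtain ⟨a, ha⟩ := hN (Sum.inr ⟨m, ⟨x, hx⟩⟩)
      refine ⟨a, ?_⟩
      apply RingOfIntegers.ext
      rw [comp'_coe, ha]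
      simp
    | zero => exact ⟨0, by simp⟩
    | add x y _ _ hx hy =>
      obtain ⟨a, ha⟩ := hx
      obtain ⟨a', ha'⟩ := hy
      exact ⟨a + a', by rw [map_add, ha, ha', mul_add]⟩
    | smul c x _ hx =>
      obtain ⟨a, ha⟩ := hx
      refine ⟨c • a, ?_⟩
      rw [map_zsmul, ha, zsmul_eq_mul, zsmul_eq_mul]
      ring
  choose ae hae using hidem
  refine ⟨N, hN0, fun p hp => ?_⟩
  have : Fact (p : ℕ).Prime := ⟨p.prop⟩
  have hNp : ((N : ℤ) : ZMod (p : ℕ)) ≠ 0 := by
    rwa [Ne, ZMod.intCast_zmod_eq_zero_iff_dvd]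
  have hone : ∀ m, comp' j m (ae m) = (N : 𝓞 (F m)) := by
    intro m
    apply RingOfIntegers.ext
    rw [comp'_coe, hae]
    simp
  have hzero : ∀ m m', m ≠ m' → comp' j m' (ae m) = 0 := by
    intro m m' h
    apply RingOfIntegers.ext
    rw [comp'_coe, hae]
    simp [Pi.single_eq_of_ne (Ne.symm h)]
  set Φ : (Σ m, (𝓞 (F m) →+* ZMod (p : ℕ))) → (A →+* ZMod (p : ℕ)) :=
    fun x => x.2.comp (comp' j x.1) with hΦ
  have hbij : Function.Bijective Φ := by
    constructor
    · rintro ⟨m, φ⟩ ⟨m', ψ⟩ h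
      have hm : m = m' := by
        by_contra hne
        have h1 := RingHom.congr_fun h (ae m)
        simp only [hΦ, RingHom.comp_apply] at h1
        rw [hone, hzero m m' hne, map_intCast, map_zero] at h1
        exact hNp h1
      subst hm
      have h2 : φ = ψ := restrict_injective (comp' j m) (hgen m) hp h
      rw [h2]
    · intro φ
      have hex : ∃ m, φ (ae m) ≠ 0 := by
        by_contra hcon
        have hcon' : ∀ m, φ (ae m) = 0 := by
          intro m
          by_contra h
          exact hcon ⟨m, h⟩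
        have hsum : ∑ m, ae m = (N : A) := by
          apply hinj
          rw [map_sum, map_intCast]
          simp only [hae]
          rw [← Finset.mul_sum, Finset.univ_sum_single]
          have : (fun _ => 1 : ∀ m, F m) = 1 := rfl
          rw [this, mul_one]
        have h1 := congrArg φ hsum
        rw [map_sum, map_intCast, Finset.sum_eq_zero fun m _ => hcon' m] at h1
        exact hNp h1.symm
      obtain ⟨m, hm⟩ := hex
      have hker : RingHom.ker (comp' j m) ≤ RingHom.ker φ := by
        intro a ha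
        rw [RingHom.mem_ker] at ha ⊢
        have h1 : j a m = 0 := by rw [← comp'_coe, ha]; rfl
        have h2 : a * ae m = 0 := by
          apply hinj
          rw [map_mul, map_zero, hae]
          funext m'
          simp only [Pi.mul_apply, Pi.zero_apply]
          by_cases h : m' = m
          · subst h; rw [h1, zero_mul]
          · rw [Pi.single_eq_of_ne h, mul_zero, mul_zero]
        have h3 := congrArg φ h2
        rw [map_mul, map_zero] at h3
        exact (mul_eq_zero.mp h3).resolve_right hm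
      obtain ⟨ψ, hψ⟩ := extend_hom (comp' j m) (hgen m) hp φ hker
      exact ⟨⟨m, ψ⟩, hψ⟩
  have hfin : ∀ m, Finite (𝓞 (F m) →+* ZMod (p : ℕ)) := fun m => hom_finite p
  unfold hc
  rw [← Nat.card_congr (Equiv.ofBijective Φ hbij), Nat.card_sigma]

end

end Pool.Agent.H921R2.TatePole
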